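import Pool.Agent.H.MP_c07d40_pr.C

namespace Pool.Agent.Results.MP_c07d40_pr.Yes
open Filter

/-- the vertices at graph distance at most r from v -/
def ball {W : Type} (G : SimpleGraph W) (r : ℕ) (v : W) : Set W := {w | G.edist v w ≤ r}

/-- G is reconstructable from its r-neighbourhoods: every graph whose rooted r-neighbourhoods are,
along some bijection of the vertices, isomorphic to those of G is isomorphic to G -/
def Recon (r : ℕ) {n : ℕ} (G : SimpleGraph (Fin n)) : Prop :=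
  ∀ (W : Type) (G' : SimpleGraph W) (φ : Fin n ≃ W),
    (∀ v, ∃ f : G.induce (ball G r v) ≃g G'.induce (ball G' r (φ v)),
      (f ⟨v, by simp [ball]⟩).1 = φ v) → Nonempty (G ≃g G')

/-- d-regular graphs on n labelled vertices -/
def Rg (d n : ℕ) : Set (SimpleGraph (Fin n)) := {G | ∀ v, (G.neighborSet v).ncard = d}

/-- probability that a uniform d-regular graph on n vertices is not reconstructable -/
noncomputable def pNot (r d n : ℕ) : ℝ :=
  ({G ∈ Rg d n | ¬ Recon r G}.ncard : ℝ) / (Rg d n).ncard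

theorem result (ε : ℝ) (hε : 0 < ε) :
    (∀ d : ℕ → ℕ, (∀ᶠ n : ℕ in atTop, Even (n * d n) ∧ (n : ℝ) ^ ε ≤ d n ∧
      (d n : ℝ) ≤ (n : ℝ) ^ (1 / 2 - ε)) → Tendsto (fun n => pNot 1 (d n) n) atTop (nhds 1)) ∧
    (∀ d : ℕ → ℕ, (∀ᶠ n : ℕ in atTop, Even (n * d n) ∧ (n : ℝ) ^ ε ≤ d n ∧
      (d n : ℝ) ≤ (n : ℝ) ^ (1 / 4 - ε)) → Tendsto (fun n => pNot 2 (d n) n) atTop (nhds 1)) :=
  ⟨fun d h => Pool.Agent.H.MP_c07d40_pr.main 0 2 le_rfl (by norm_num) ε hε d (by exact_mod_cast h),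
    fun d h => Pool.Agent.H.MP_c07d40_pr.main 1 4 le_rfl le_rfl ε hε d (by exact_mod_cast h)⟩

end Pool.Agent.Results.MP_c07d40_pr.Yes
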